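import Pool.Agent.Q120.GM.APPrimes

/-!
# The numbers `2 k n + 1` in the sieved models
-/

set_option autoImplicit false
set_option linter.unusedSectionVars false

namespace Pool.Agent.Q197.LK

open Finset MeasureTheory ProbabilityTheory Filter Pool.Agent.Q120.AD Pool.Agent.Q120.GM
open scoped Topology

/-- the density of the numbers `2 k n + 1` -/
noncomputable def cQ (Q : ℕ) : ℝ := if Even Q then 2 else 1

theorem cQ_pos (Q : ℕ) : 0 < cQ Q := by
  unfold cQ
  split_ifs <;> norm_num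

theorem one_le_cQ (Q : ℕ) : 1 ≤ cQ Q := by
  unfold cQ
  split_ifs <;> norm_num

theorem cQ_le (Q : ℕ) : cQ Q ≤ 2 := by
  unfold cQ
  split_ifs <;> norm_num

theorem count_mul {q : ℕ} (P : ℕ → Prop) [DecidablePred P] (hP : Function.Periodic P q) (m : ℕ) :
    ((range (m * q)).filter P).card = m * ((range q).filter P).card := by
  induction m with
  | zero => simp
  | succ m ih =>
    have h1 : range ((m + 1) * q) = range (m * q) ∪ Ico (m * q) (m * q + q) := by
      rw [range_eq_Ico, range_eq_Ico, Ico_union_Ico_eq_Ico (by omega) (by omega)]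
      congr 1
      ring
    rw [h1, filter_union, card_union_of_disjoint, ih, Nat.filter_Ico_card_eq_of_periodic _ _ _ hP,
      Nat.count_eq_card_filter_range]
    · ring
    · rw [range_eq_Ico]
      exact (Ico_disjoint_Ico_consecutive _ _ _).mono (filter_subset _ _) (filter_subset _ _)

theorem ca_odd {Q : ℕ} (hQ : 1 ≤ Q) {a d : ℕ} (hd : d.Coprime Q) : ca Q a d = Nat.totient Q := by
  have h := dens_one hQ (a := a) hd
  unfold Q120.GM.dens at h
  have h2 : (0 : ℝ) < Nat.totient Q := by exact_mod_cast Nat.totient_pos.2 hQ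
  rw [div_eq_one_iff_eq h2.ne'] at h
  exact_mod_cast h

theorem dens_eq' {Q : ℕ} (hQ : 1 ≤ Q) {n a : ℕ} (hn : n.Coprime Q) (ha : Odd a) : dens Q a (2 * n) = cQ Q := by
  unfold cQ
  split_ifs with he
  · obtain ⟨e, Q', hQ', hQe⟩ := Nat.exists_eq_two_pow_mul_odd (show Q ≠ 0 by omega)
    have he1 : 1 ≤ e := by
      by_contra hcon
      have : e = 0 := by omega
      rw [this, pow_zero, one_mul] at hQe
      rw [hQe] at he
      exact (Nat.not_even_iff_odd.2 hQ') he
    have hQ'1 : 1 ≤ Q' := hQ'.pos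
    have hnQ' : n.Coprime Q' := by
      rw [hQe] at hn
      exact Nat.Coprime.coprime_mul_left_right hn
    have hiff : ∀ m, (a + 2 * n * m).Coprime Q ↔ (a + 2 * n * m).Coprime Q' := by
      intro m
      have h1 : Odd (a + 2 * n * m) := by
        rw [mul_assoc]
        exact ha.add_even (even_two_mul _)
      rw [hQe]
      constructor
      · exact fun h => Nat.Coprime.coprime_mul_left_right h
      · intro h
        refine Nat.Coprime.mul_right ?_ h
        exact (Nat.coprime_two_right.2 h1).pow_right e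
    have h2 : ca Q a (2 * n) = 2 ^ e * ca Q' a (2 * n) := by
      unfold ca
      rw [filter_congr (fun m _ => hiff m)]
      have h3 := count_mul (fun m => (a + 2 * n * m).Coprime Q') (per_ap Q' a (2 * n)) (2 ^ e)
      rw [← hQe] at h3
      exact h3
    have h3 : (2 * n).Coprime Q' := Nat.Coprime.mul_left (Nat.coprime_two_left.2 hQ') hnQ'
    rw [ca_odd hQ'1 h3] at h2
    have h4 : Nat.totient Q = 2 ^ (e - 1) * Nat.totient Q' := by
      rw [hQe, Nat.totient_mul ((Nat.coprime_two_left.2 hQ').pow_left e), Nat.totient_prime_pow Nat.prime_two he1]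
      norm_num
    unfold Q120.GM.dens
    rw [h2, h4]
    have h5 : (0 : ℝ) < Nat.totient Q' := by exact_mod_cast Nat.totient_pos.2 hQ'1
    obtain ⟨e', rfl⟩ : ∃ e', e = e' + 1 := ⟨e - 1, by omega⟩
    push_cast
    rw [pow_succ]
    field_simp
  · rw [Nat.not_even_iff_odd] at he
    exact dens_one hQ (Nat.Coprime.mul_left (Nat.coprime_two_left.2 he) hn)

/-- the numbers `2 k n + 1`, `1 ≤ k ≤ M` -/
def S (n M : ℕ) : Finset ℕ := (Icc 1 M).image (fun k => 2 * k * n + 1)

theorem mem_S {n M m : ℕ} : m ∈ S n M ↔ ∃ k, 1 ≤ k ∧ k ≤ M ∧ m = 2 * k * n + 1 := by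
  unfold S
  rw [mem_image]
  constructor
  · rintro ⟨k, hk, rfl⟩
    rw [mem_Icc] at hk
    exact ⟨k, hk.1, hk.2, rfl⟩
  · rintro ⟨k, h1, h2, rfl⟩
    exact ⟨k, mem_Icc.2 ⟨h1, h2⟩, rfl⟩

theorem cls_S (n M : ℕ) : cls 1 (2 * n) M = insert 1 (S n M) := by
  ext m
  rw [mem_cls, mem_insert, mem_S]
  constructor
  · rintro ⟨k, hk, rfl⟩
    rcases Nat.eq_zero_or_pos k with h | h
    · subst h
      exact Or.inl (by ring)
    · exact Or.inr ⟨k, h, hk, by ring⟩
  · rintro (rfl | ⟨k, h1, h2, rfl⟩)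
    · exact ⟨0, by omega, by ring⟩
    · exact ⟨k, h2, by ring⟩

theorem cls_S' (n M : ℕ) : cls (2 * n + 1) (2 * n) M = S n (M + 1) := by
  ext m
  rw [mem_cls, mem_S]
  constructor
  · rintro ⟨k, hk, rfl⟩
    exact ⟨k + 1, by omega, by omega, by ring⟩
  · rintro ⟨k, h1, h2, rfl⟩
    obtain ⟨j, rfl⟩ : ∃ j, k = j + 1 := ⟨k - 1, by omega⟩
    exact ⟨j, by omega, by ring⟩

variable {Ω : Type*} [MeasurableSpace Ω] {μ : Measure Ω} [IsProbabilityMeasure μ] {A : Ω → Set ℕ} {Q : ℕ}

theorem level_one (Q : ℕ) : level Q 1 = 0 := by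
  unfold level
  split_ifs
  · simp
  · rfl

theorem free_eq_S (hA : IsModel μ (level Q) A) {n M : ℕ} (hn : 1 ≤ n) :
    μ.real (free A (S n M)) = μ.real (free A (cls 1 (2 * n) M)) := by
  rw [real_free hA, real_free hA, cls_S, prod_insert, level_one, sub_zero, one_mul]
  rw [mem_S]
  rintro ⟨k, h1, _, h3⟩
  have : 1 ≤ k * n := Nat.mul_pos h1 hn
  nlinarith

/-- upper bound -/
theorem freeS_le (hA : IsModel μ (level Q) A) (hQ : 1 ≤ Q) {n M : ℕ} (hn : n.Coprime Q)
    (hd : qq Q ≤ Real.log ((2 * n : ℕ) : ℝ)) (hd1 : 0 < Real.log ((2 * n : ℕ) : ℝ)) (hn1 : 1 ≤ n) :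
    μ.real (free A (S n M)) ≤
      Real.exp (-(((M : ℝ) - Q) * cQ Q / Real.log (((2 * n : ℕ) : ℝ) * ((M : ℝ) + 1)))) := by
  rw [free_eq_S hA hn1, ← dens_eq' hQ hn odd_one]
  exact free_le hA hQ (by omega) hd hd1

/-- lower bound -/
theorem le_freeS (hA : IsModel μ (level Q) A) (hQ : 1 ≤ Q) {n M : ℕ} (hn : n.Coprime Q) {x : ℝ} (hx0 : 0 < x)
    (hxa : x ≤ n) (hx1 : 2 * qq Q ≤ Real.log x) :
    Real.exp (-((1 + 2 * (qq Q / Real.log x)) * (((M : ℝ) + Q) * cQ Q / Real.log x))) ≤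
      μ.real (free A (S n M)) := by
  have hn0 : (0 : ℝ) < n := lt_of_lt_of_le hx0 hxa
  have hn1 : 1 ≤ n := by exact_mod_cast hn0
  rcases Nat.eq_zero_or_pos M with hM | hM
  · subst hM
    have h1 : free A (S n 0) = Set.univ := by
      ext ω
      simp only [free, Set.mem_ofPred_eq, Set.mem_univ, iff_true]
      intro m hm
      rw [mem_S] at hm
      obtain ⟨k, h1, h2, _⟩ := hm
      omega
    rw [h1, probReal_univ, Real.exp_le_one_iff, Left.neg_nonpos_iff]
    have h2 := qq_pos hQ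
    have h3 : 0 < Real.log x := by linarith
    have h4 := cQ_pos Q
    positivity
  · obtain ⟨M', rfl⟩ : ∃ M', M = M' + 1 := ⟨M - 1, by omega⟩
    rw [← cls_S', ← dens_eq' hQ hn (show Odd (2 * n + 1) from odd_two_mul_add_one n)]
    push_cast
    refine le_free hA hQ hx0 ?_ (by omega) hx1
    push_cast
    linarith

end Pool.Agent.Q197.LK
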