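import Pool.Agent.Q197.LK.Base

/-!
# Counting the exceptional elements
-/

set_option autoImplicit false
set_option linter.unusedSectionVars false

namespace Pool.Agent.Q197.LK

open Finset MeasureTheory ProbabilityTheory Filter Pool.Agent.Q120.AD Pool.Agent.Q120.GM
open scoped Topology

variable {Ω : Type*} [MeasurableSpace Ω] {μ : Measure Ω} [IsProbabilityMeasure μ] {A : Ω → Set ℕ} {Q : ℕ}

/-- the range of `k` -/
noncomputable def Mm (Q : ℕ) (lam : ℝ) (n : ℕ) : ℕ := ⌊lam * Real.log ((2 * n : ℕ) : ℝ) ^ 2 / cQ Q⌋₊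

theorem mc_eq (hQ : 1 ≤ Q) {lam : ℝ} {n a : ℕ} (hn : n.Coprime Q) (ha : Odd a) : mc lam Q a (2 * n) = Mm Q lam n := by
  unfold mc Mm
  rw [dens_eq' hQ hn ha]

/-- the event `n ∈ A` and no `2 k n + 1 ∈ A`, `k ≤ Mm` -/
def E (A : Ω → Set ℕ) (Q : ℕ) (lam : ℝ) (n : ℕ) : Set Ω := {ω | n ∈ A ω} ∩ free A (S n (Mm Q lam n))

theorem F_E (lam : ℝ) (n : ℕ) : MeasurableSet[F A (insert n (S n (Mm Q lam n) : Set ℕ))] (E A Q lam n) := by
  unfold E
  exact MeasurableSet.inter (F_mem (Set.mem_insert _ _)) (F_free (fun m hm => Set.mem_insert_of_mem _ hm))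

theorem meas_E (hA : IsModel μ (level Q) A) (lam : ℝ) (n : ℕ) : MeasurableSet (E A Q lam n) :=
  F_le hA _ _ (F_E lam n)

theorem two_mul_tendsto : Tendsto (fun n : ℕ => 2 * n) atTop (atTop : Filter ℕ) :=
  tendsto_atTop_mono (fun n => (by show n ≤ 2 * n; omega)) tendsto_id

theorem notMem_S {n M : ℕ} (hn : 1 ≤ n) : n ∉ S n M := by
  rw [mem_S]
  rintro ⟨k, h1, _, h3⟩
  have : 1 * n ≤ k * n := Nat.mul_le_mul_right n h1
  nlinarith

theorem real_E (hA : IsModel μ (level Q) A) {lam : ℝ} {n : ℕ} (hn : 1 ≤ n) :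
    μ.real (E A Q lam n) = level Q n * μ.real (free A (S n (Mm Q lam n))) := by
  unfold E
  rw [indep_real hA (S := {n}) (T := (S n (Mm Q lam n) : Set ℕ)) ?_ (F_mem (Set.mem_singleton n)) (F_free (fun m hm => hm)),
    hA.prob]
  rw [Set.disjoint_singleton_left]
  exact notMem_S hn

theorem free_up (hA : IsModel μ (level Q) A) (hQ : 1 ≤ Q) {lam δ : ℝ} (hlam : 0 < lam) (hδ : 0 < δ) (hδl : δ < lam) :
    ∀ᶠ n : ℕ in atTop, n.Coprime Q → μ.real (free A (S n (Mm Q lam n))) ≤ (n : ℝ) ^ (-(lam - δ)) := by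
  filter_upwards [two_mul_tendsto.eventually (prob_le hA hQ hlam hδ hδl), eventually_ge_atTop 1] with n h1 h2 h3
  have h4 := h1 1 (by omega) (by rw [dens_eq' hQ h3 odd_one]; exact cQ_pos Q)
  rw [mc_eq hQ h3 odd_one, ← free_eq_S hA h2] at h4
  refine h4.trans ?_
  have hn0 : (0 : ℝ) < n := by exact_mod_cast h2
  refine Real.rpow_le_rpow_of_nonpos hn0 ?_ (by linarith)
  push_cast
  linarith

theorem free_mono {n M M' : ℕ} (h : M ≤ M') : free A (S n M') ⊆ free A (S n M) := by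
  intro ω hω m hm
  rw [mem_S] at hm
  obtain ⟨k, h1, h2, h3⟩ := hm
  exact hω m (mem_S.2 ⟨k, h1, h2.trans h, h3⟩)

theorem free_low (hA : IsModel μ (level Q) A) (hQ : 1 ≤ Q) {lam δ : ℝ} (hlam : 0 < lam) (hδ : 0 < δ) :
    ∀ᶠ n : ℕ in atTop, n.Coprime Q → (2 * (n : ℝ)) ^ (-(lam + δ)) ≤ μ.real (free A (S n (Mm Q lam n))) := by
  filter_upwards [two_mul_tendsto.eventually (le_prob hA hQ hlam hδ), eventually_ge_atTop 1] with n h1 h2 h3
  have h4 := h1 (2 * n + 1) (by push_cast; linarith [(Nat.cast_nonneg n : (0 : ℝ) ≤ n)])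
    (by rw [dens_eq' hQ h3 (odd_two_mul_add_one n)]; exact cQ_pos Q)
  rw [mc_eq hQ h3 (odd_two_mul_add_one n), cls_S'] at h4
  push_cast at h4
  exact h4.trans (measureReal_mono (free_mono (by omega)))

theorem E_up (hA : IsModel μ (level Q) A) (hQ : 1 ≤ Q) {lam δ : ℝ} (hlam : 0 < lam) (hδ : 0 < δ) (hδl : δ < lam) :
    ∀ᶠ n : ℕ in atTop, μ.real (E A Q lam n) ≤ (n : ℝ) ^ (-(lam - δ)) := by
  filter_upwards [free_up hA hQ hlam hδ hδl, eventually_ge_atTop 1] with n h1 h2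
  rw [real_E hA h2]
  by_cases h3 : n.Coprime Q
  · have h4 := level_le_one Q n
    have h5 := level_nonneg Q n
    have h6 : 0 ≤ μ.real (free A (S n (Mm Q lam n))) := measureReal_nonneg
    exact (mul_le_of_le_one_left h6 h4).trans (h1 h3)
  · have h4 : level Q n = 0 := by
      unfold level
      rw [if_neg h3]
    rw [h4, zero_mul]
    positivity

/-- Distinct primes have disjoint sets. -/
theorem S_disjoint {p q M M' : ℕ} (hp : p.Prime) (hq : q.Prime) (hpq : p ≠ q) (hM : M' < p) : Disjoint (S p M) (S q M') := by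
  rw [Finset.disjoint_left]
  intro m h1 h2
  rw [mem_S] at h1 h2
  obtain ⟨k, k1, k2, k3⟩ := h1
  obtain ⟨j, j1, j2, j3⟩ := h2
  have h3 : k * p = j * q := by
    have : 2 * k * p = 2 * j * q := by omega
    rw [mul_assoc, mul_assoc] at this
    exact Nat.eq_of_mul_eq_mul_left (by norm_num) this
  have h4 : p ∣ j * q := Dvd.intro_left k h3
  rcases (Nat.Prime.dvd_mul hp).1 h4 with h5 | h5
  · have := Nat.le_of_dvd (by omega) h5
    omega
  · exact hpq ((Nat.prime_dvd_prime_iff_eq hp hq).1 h5)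

theorem E_pair (hA : IsModel μ (level Q) A) {lam : ℝ} {p q : ℕ} (hp : p.Prime) (hq : q.Prime) (hpq : p ≠ q)
    (hM : Mm Q lam q < p) {η : ℝ} (hη : 0 ≤ η) :
    μ.real (E A Q lam p ∩ E A Q lam q) ≤ (1 + η) * (μ.real (E A Q lam p) * μ.real (E A Q lam q)) := by
  have h0 : 0 ≤ μ.real (E A Q lam p) * μ.real (E A Q lam q) := mul_nonneg measureReal_nonneg measureReal_nonneg
  by_cases h1 : p ∈ S q (Mm Q lam q)
  · have h2 : E A Q lam p ∩ E A Q lam q = ∅ := by
      rw [Set.eq_empty_iff_forall_notMem]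
      rintro ω ⟨⟨h3, _⟩, _, h4⟩
      exact h4 p h1 h3
    rw [h2, measureReal_empty]
    positivity
  by_cases h2 : q ∈ S p (Mm Q lam p)
  · have h3 : E A Q lam p ∩ E A Q lam q = ∅ := by
      rw [Set.eq_empty_iff_forall_notMem]
      rintro ω ⟨⟨_, h4⟩, h3, _⟩
      exact h4 q h2 h3
    rw [h3, measureReal_empty]
    positivity
  have h3 : Disjoint (insert p (S p (Mm Q lam p) : Set ℕ)) (insert q (S q (Mm Q lam q) : Set ℕ)) := by
    rw [Set.disjoint_left]
    intro m h4 h5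
    rw [Set.mem_insert_iff, mem_coe] at h4 h5
    rcases h4 with rfl | h4
    · rcases h5 with h5 | h5
      · exact hpq h5
      · exact h1 h5
    · rcases h5 with rfl | h5
      · exact h2 h4
      · exact (Finset.disjoint_left.1 (S_disjoint hp hq hpq hM)) h4 h5
  rw [indep_real hA h3 (F_E lam p) (F_E lam q)]
  nlinarith

theorem pow_ev {κ : ℝ} (hκ : 0 < κ) (c : ℝ) (m : ℕ) : ∀ᶠ k : ℕ in atTop, c * Real.log ((2 : ℝ) ^ k) ^ m ≤ ((2 : ℝ) ^ k) ^ κ := by
  have h1 := two_pow_tendsto.eventually (ev_power c m hκ)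
  filter_upwards [h1] with k hk
  simpa using hk

/-- **Upper bound for the number of exceptional elements.** -/
theorem num_up (hA : IsModel μ (level Q) A) (hQ : 1 ≤ Q) {lam ε : ℝ} (hlam : 0 < lam) (hlam1 : lam ≤ 1) (hε : 0 < ε) :
    ∀ᵐ ω ∂μ, ∀ᶠ x : ℕ in atTop, num (range (x + 1)) (E A Q lam) ω ≤ (x : ℝ) ^ (1 - lam + ε) := by
  obtain ⟨δ, hδ⟩ : ∃ δ : ℝ, δ = min (lam / 2) (ε / 2) := ⟨_, rfl⟩
  have hδ0 : 0 < δ := by rw [hδ]; exact lt_min (by linarith) (by linarith)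
  have hδ1 : δ ≤ lam / 2 := by rw [hδ]; exact min_le_left _ _
  have hδ2 : δ ≤ ε / 2 := by rw [hδ]; exact min_le_right _ _
  filter_upwards [upper_count (μ := μ) (E := E A Q lam) (meas_E hA lam) (s := lam - δ) (by linarith)
    (E_up hA hQ hlam hδ0 (by linarith)) (show 0 < ε / 2 by linarith)] with ω hω
  filter_upwards [hω, eventually_ge_atTop 1] with x hx hx1
  refine hx.trans (Real.rpow_le_rpow_of_exponent_le (by exact_mod_cast hx1) (by linarith))

/-- **Lower bound for the number of exceptional elements.** -/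
theorem num_low (hA : IsModel μ (level Q) A) (hQ : 1 ≤ Q) {lam ε : ℝ} (hlam : 0 < lam) (hlam1 : lam < 1) (hε : 0 < ε) :
    ∀ᵐ ω ∂μ, ∀ᶠ x : ℕ in atTop, (x : ℝ) ^ (1 - lam - ε) ≤ num (range (x + 1)) (E A Q lam) ω := by
  obtain ⟨δ, hδ⟩ : ∃ δ : ℝ, δ = min ((1 - lam) / 8) (ε / 8) := ⟨_, rfl⟩
  have hδ0 : 0 < δ := by rw [hδ]; exact lt_min (by linarith) (by linarith)
  have hδ1 : δ ≤ (1 - lam) / 8 := by rw [hδ]; exact min_le_left _ _
  have hδ2 : δ ≤ ε / 8 := by rw [hδ]; exact min_le_right _ _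
  have hq := qq_pos hQ
  have hQ0 : (0 : ℝ) < Q := by exact_mod_cast hQ
  have hqq1 : 1 ≤ qq Q := by
    unfold qq
    rw [le_div_iff₀ (by exact_mod_cast Nat.totient_pos.2 hQ), one_mul]
    exact_mod_cast Nat.totient_le Q
  have k1 := ev_pk (free_low hA hQ hlam hδ0)
  have k2 := ev_pk (eventually_gt_atTop Q)
  have k3 := ev_pk (hl.eventually_ge_atTop (qq Q))
  have hS : ∀ᶠ k : ℕ in atTop, ((2 : ℝ) ^ k) ^ (1 - lam - 2 * δ) ≤ ∑ d ∈ pk k, μ.real (E A Q lam d) := by
    filter_upwards [k1, k2, k3, card_pk, pow_ev hδ0 (2 * 2 ^ (lam + δ)) 2, pow_ev hδ0 1 1, eventually_ge_atTop 1] with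
      k h1 h2 h3 h4 h5 h6 h7
    obtain ⟨D, hD⟩ : ∃ D : ℝ, D = (2 : ℝ) ^ k := ⟨_, rfl⟩
    rw [← hD] at h4 h5 h6 ⊢
    have hD1 : 2 ≤ D := by
      rw [hD]
      calc (2 : ℝ) = 2 ^ 1 := by norm_num
        _ ≤ 2 ^ k := pow_le_pow_right₀ (by norm_num) h7
    have hD0 : 0 < D := by linarith
    have hlD : 0 < Real.log D := Real.log_pos (by linarith)
    have hterm : ∀ p ∈ pk k, 1 / Real.log D * (2 * D) ^ (-(lam + δ)) ≤ μ.real (E A Q lam p) := by
      intro p hp
      have hp' := mem_pk.1 hp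
      have hpp := hp'.2.1
      have hp0 : (0 : ℝ) < p := by exact_mod_cast hpp.pos
      have hpD : (p : ℝ) ≤ D := by rw [hD]; exact_mod_cast hp'.1
      have hco : p.Coprime Q := (Nat.Prime.coprime_iff_not_dvd hpp).2 (fun hdvd => by
        have := Nat.le_of_dvd (by omega) hdvd
        have := h2 p hp
        omega)
      rw [real_E hA hpp.one_lt.le]
      have hlp : 0 < Real.log (p : ℝ) := Real.log_pos (by exact_mod_cast hpp.one_lt)
      have e1 : 1 / Real.log D ≤ level Q p := by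
        refine le_trans ?_ (le_level (h3 p hp) hlp hp0 le_rfl le_rfl hco)
        rw [div_le_div_iff₀ hlD hlp]
        have := Real.log_le_log hp0 hpD
        nlinarith
      have e2 : (2 * D) ^ (-(lam + δ)) ≤ μ.real (free A (S p (Mm Q lam p))) := by
        refine le_trans ?_ (h1 p hp hco)
        exact Real.rpow_le_rpow_of_nonpos (by positivity) (by linarith) (by linarith)
      exact mul_le_mul e1 e2 (by positivity) (level_nonneg _ _)
    have e3 : ((pk k).card : ℝ) * (1 / Real.log D * (2 * D) ^ (-(lam + δ))) ≤ ∑ d ∈ pk k, μ.real (E A Q lam d) := by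
      rw [← nsmul_eq_mul]
      exact Finset.card_nsmul_le_sum _ _ _ hterm
    refine le_trans ?_ e3
    have e4 : D / (2 * Real.log D) ≤ (pk k).card := by
      rw [div_le_iff₀ (by positivity)]
      linarith
    have e5 : D / (2 * Real.log D) * (1 / Real.log D * (2 * D) ^ (-(lam + δ))) ≤
        ((pk k).card : ℝ) * (1 / Real.log D * (2 * D) ^ (-(lam + δ))) := mul_le_mul_of_nonneg_right e4 (by positivity)
    refine le_trans ?_ e5
    have e6 : D / (2 * Real.log D) * (1 / Real.log D * (2 * D) ^ (-(lam + δ))) =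
        D ^ (1 - lam - δ) / (2 * 2 ^ (lam + δ) * Real.log D ^ 2) := by
      rw [Real.mul_rpow (by norm_num) hD0.le, Real.rpow_neg (by norm_num : (0 : ℝ) ≤ 2)]
      have e7 : D ^ (1 - lam - δ) = D * D ^ (-(lam + δ)) := by
        nth_rewrite 2 [← Real.rpow_one D]
        rw [← Real.rpow_add hD0]
        congr 1
        ring
      rw [e7]
      field_simp
    rw [e6, le_div_iff₀ (by positivity)]
    have e8 : D ^ (1 - lam - δ) = D ^ (1 - lam - 2 * δ) * D ^ δ := by
      rw [← Real.rpow_add hD0]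
      congr 1
      ring
    rw [e8]
    exact mul_le_mul_of_nonneg_left h5 (by positivity)
  have hc : ∀ᶠ k : ℕ in atTop, ∀ i ∈ pk k, ∀ j ∈ pk k, i ≠ j →
      μ.real (E A Q lam i ∩ E A Q lam j) ≤ (1 + ((2 : ℝ) ^ k) ^ (-(1 : ℝ))) * (μ.real (E A Q lam i) * μ.real (E A Q lam j)) := by
    filter_upwards [pow_ev (show (0 : ℝ) < 1 / 2 by norm_num) (lam * 4) 2, eventually_ge_atTop 7] with k h1 h2 i hi j hj hij
    have hi' := mem_pk.1 hi
    have hj' := mem_pk.1 hj
    refine E_pair hA hi'.2.1 hj'.2.1 hij ?_ (by positivity)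
    obtain ⟨D, hD⟩ : ∃ D : ℝ, D = (2 : ℝ) ^ k := ⟨_, rfl⟩
    rw [← hD] at h1
    have hD1 : 128 ≤ D := by
      rw [hD]
      calc (128 : ℝ) = 2 ^ 7 := by norm_num
        _ ≤ 2 ^ k := pow_le_pow_right₀ (by norm_num) h2
    have hD0 : 0 < D := by linarith
    have hj0 : (0 : ℝ) < j := by exact_mod_cast hj'.2.1.pos
    have hjD : (j : ℝ) ≤ D := by rw [hD]; exact_mod_cast hj'.1
    have hDi : D < 8 * i := by
      rw [hD]
      exact_mod_cast hi'.2.2
    have e1 : (Mm Q lam j : ℝ) ≤ D ^ (1 / 2 : ℝ) := by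
      have e2 : (Mm Q lam j : ℝ) ≤ lam * Real.log ((2 * j : ℕ) : ℝ) ^ 2 / cQ Q := by
        unfold Mm
        refine Nat.floor_le ?_
        have := cQ_pos Q
        positivity
      have hj1 : 1 ≤ (2 * j : ℕ) := by omega
      have e3 : Real.log ((2 * j : ℕ) : ℝ) ≤ 2 * Real.log D := by
        have e4 : ((2 * j : ℕ) : ℝ) ≤ D ^ 2 := by
          push_cast
          nlinarith
        have e5 := Real.log_le_log (by exact_mod_cast hj1) e4
        rw [Real.log_pow] at e5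
        exact_mod_cast e5
      have e4 : 0 ≤ Real.log ((2 * j : ℕ) : ℝ) := Real.log_natCast_nonneg _
      have e5 : lam * Real.log ((2 * j : ℕ) : ℝ) ^ 2 / cQ Q ≤ lam * (2 * Real.log D) ^ 2 := by
        rw [div_le_iff₀ (cQ_pos Q)]
        have e6 : lam * Real.log ((2 * j : ℕ) : ℝ) ^ 2 ≤ lam * (2 * Real.log D) ^ 2 :=
          mul_le_mul_of_nonneg_left (pow_le_pow_left₀ e4 e3 2) hlam.le
        have e7 : 0 ≤ lam * (2 * Real.log D) ^ 2 := by positivity
        have := one_le_cQ Q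
        nlinarith
      nlinarith
    have e2 : D ^ (1 / 2 : ℝ) < i := by
      have e3 : D ^ (1 / 2 : ℝ) * D ^ (1 / 2 : ℝ) = D := by
        rw [← Real.rpow_add hD0]
        norm_num
      have e4 : 0 < D ^ (1 / 2 : ℝ) := by positivity
      have e5 : 8 ≤ D ^ (1 / 2 : ℝ) := by
        by_contra hcon
        push Not at hcon
        nlinarith
      nlinarith
    exact_mod_cast lt_of_le_of_lt e1 e2
  have h1 := lower_count (μ := μ) (E := E A Q lam) (meas_E hA lam) (P := pk) (σ := 1 - lam - 2 * δ) (by linarith) hS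
    one_pos hc (show 0 < ε / 2 by linarith)
  filter_upwards [h1] with ω hω
  filter_upwards [hω, eventually_ge_atTop 1] with x hx hx1
  refine le_trans ?_ (hx.trans (num_mono ?_ _ _))
  · exact Real.rpow_le_rpow_of_exponent_le (by exact_mod_cast hx1) (by linarith)
  · intro p hp
    rw [mem_pk] at hp
    rw [mem_range, Nat.lt_succ_iff]
    exact hp.1.trans (Nat.pow_log_le_self 2 (by omega))

end Pool.Agent.Q197.LK
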