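import Pool.Agent.Q197.LK.Law

/-!
# The probability that the question fails beyond `N`
-/

set_option autoImplicit false
set_option linter.unusedSectionVars false

namespace Pool.Agent.Q197.LK

open Finset MeasureTheory ProbabilityTheory Filter Pool.Agent.Q120.AD Pool.Agent.Q120.GM
open scoped Topology

variable {Ω : Type*} [MeasurableSpace Ω] {μ : Measure Ω} [IsProbabilityMeasure μ] {A : Ω → Set ℕ} {Q : ℕ}

/-- `n / log n` -/
noncomputable def h (n : ℕ) : ℝ := n / Real.log n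

theorem h_mono : ∀ᶠ N : ℕ in atTop, ∀ n : ℕ, N ≤ n → h N ≤ h n := by
  filter_upwards [(tendsto_natCast_atTop_atTop (R := ℝ)).eventually_ge_atTop (Real.exp 1), hl.eventually_gt_atTop 0,
    eventually_gt_atTop 0] with N h1 h2 h3 n hn
  have hN0 : (0 : ℝ) < N := by exact_mod_cast h3
  have hNn : (N : ℝ) ≤ n := by exact_mod_cast hn
  have h4 : Real.log (n : ℝ) / n ≤ Real.log N / N :=
    Real.log_div_self_antitoneOn h1 (show Real.exp 1 ≤ (n : ℝ) by linarith) hNn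
  have h5 : Real.log (N : ℝ) ≤ Real.log n := Real.log_le_log hN0 hNn
  unfold h
  rw [← inv_div, ← inv_div (Real.log (n : ℝ)) n]
  exact inv_anti₀ (div_pos (by linarith) (by linarith)) h4

theorem h_big {c : ℝ} (hc : 0 < c) : ∀ᶠ n : ℕ in atTop, Real.exp (-(c * h n)) ≤ 1 / 4 * (n : ℝ) ^ (-2 : ℝ) := by
  have h1 := ev_power (4 / c) 2 (show (0 : ℝ) < 1 by norm_num)
  filter_upwards [h1, hl.eventually_ge_atTop (Real.log 4), hl.eventually_gt_atTop 0, eventually_gt_atTop 0] with n h2 h3 h4 h5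
  have hn0 : (0 : ℝ) < n := by exact_mod_cast h5
  rw [Real.rpow_one] at h2
  have e1 : (1 / 4 : ℝ) * (n : ℝ) ^ (-2 : ℝ) = Real.exp (-(Real.log 4 + 2 * Real.log n)) := by
    rw [Real.rpow_def_of_pos hn0, neg_add, Real.exp_add, Real.exp_neg (Real.log 4), Real.exp_log (by norm_num)]
    congr 1
    · norm_num
    · congr 1
      ring
  rw [e1, Real.exp_le_exp, neg_le_neg_iff]
  have e2 : 4 * Real.log (n : ℝ) ≤ c * h n := by
    unfold h
    rw [← mul_div_assoc, le_div_iff₀ h4]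
    have : 4 / c * Real.log (n : ℝ) ^ 2 * c ≤ n * c := mul_le_mul_of_nonneg_right h2 hc.le
    have e3 : 4 / c * Real.log (n : ℝ) ^ 2 * c = 4 * Real.log n ^ 2 := by field_simp
    rw [e3] at this
    linarith
  linarith

/-- the admissible numbers -/
def T (n : ℕ) : Finset ℕ := ((Icc 1 (2 * n + 1)).filter (fun k => ¬ n ∣ k)).image (fun k => 2 * k * n + 1)

theorem mem_T {n m : ℕ} : m ∈ T n ↔ ∃ k, 1 ≤ k ∧ k < 2 * (n + 1) ∧ ¬ n ∣ k ∧ m = 2 * k * n + 1 := by
  unfold T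
  rw [mem_image]
  constructor
  · rintro ⟨k, hk, rfl⟩
    rw [mem_filter, mem_Icc] at hk
    exact ⟨k, hk.1.1, by omega, hk.2, rfl⟩
  · rintro ⟨k, h1, h2, h3, rfl⟩
    exact ⟨k, by rw [mem_filter, mem_Icc]; exact ⟨⟨h1, by omega⟩, h3⟩, rfl⟩

theorem T_sub (n : ℕ) : T n ⊆ S n (2 * n + 1) := by
  intro m hm
  rw [mem_T] at hm
  obtain ⟨k, h1, h2, _, h3⟩ := hm
  exact mem_S.2 ⟨k, h1, by omega, h3⟩

theorem sdiff_T {n : ℕ} (hn : 2 ≤ n) : S n (2 * n + 1) \ T n ⊆ {2 * n * n + 1, 2 * (2 * n) * n + 1} := by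
  intro m hm
  rw [Finset.mem_sdiff, mem_S, mem_T] at hm
  obtain ⟨⟨k, h1, h2, h3⟩, h4⟩ := hm
  have h5 : n ∣ k := by
    by_contra hcon
    exact h4 ⟨k, h1, by omega, hcon, h3⟩
  obtain ⟨j, rfl⟩ := h5
  rw [mem_insert, mem_singleton]
  have h6 : j < 3 := by
    by_contra hcon
    have : n * 3 ≤ n * j := Nat.mul_le_mul_left n (by omega)
    omega
  have h7 : 1 ≤ j := by
    rcases Nat.eq_zero_or_pos j with h | h
    · subst h
      omega
    · exact h
  have h8 : j = 1 ∨ j = 2 := by omega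
  rcases h8 with rfl | rfl
  · left
    rw [h3]
    ring
  · right
    rw [h3]
    ring

theorem free_T_le (hA : IsModel μ (level Q) A) (hQ : 1 ≤ Q) {n : ℕ} (hn : 2 ≤ n) (hl2 : 2 * qq Q ≤ Real.log n) :
    μ.real (free A (T n)) ≤ 4 * μ.real (free A (S n (2 * n + 1))) := by
  have hq := qq_pos hQ
  have hn0 : (0 : ℝ) < n := by exact_mod_cast (by omega : 0 < n)
  have hlog : 0 < Real.log (n : ℝ) := by linarith
  have hhalf : ∀ m : ℕ, n ≤ m → (1 / 2 : ℝ) ≤ 1 - level Q m := by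
    intro m hm
    have h1 : level Q m ≤ qq Q / Real.log n := level_le hlog hn0 (by exact_mod_cast hm)
    have h2 : qq Q / Real.log n ≤ 1 / 2 := by
      rw [div_le_iff₀ hlog]
      linarith
    linarith
  rw [real_free hA, real_free hA]
  rw [← prod_sdiff (T_sub n)]
  have h1 : (1 / 4 : ℝ) ≤ ∏ m ∈ S n (2 * n + 1) \ T n, (1 - level Q m) := by
    have h2 : ∏ m ∈ ({2 * n * n + 1, 2 * (2 * n) * n + 1} : Finset ℕ), (1 - level Q m) ≤
        ∏ m ∈ S n (2 * n + 1) \ T n, (1 - level Q m) := by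
      rw [← prod_sdiff (sdiff_T hn)]
      refine mul_le_of_le_one_left (prod_nonneg (fun m _ => by linarith [level_le_one Q m])) ?_
      exact prod_le_one (fun m _ => by linarith [level_le_one Q m]) (fun m _ => by linarith [level_nonneg Q m])
    refine le_trans ?_ h2
    have h3 : 2 * n * n + 1 ≠ 2 * (2 * n) * n + 1 := by
      intro h
      have : n * n = 0 := by nlinarith
      have : 0 < n * n := by positivity
      omega
    rw [prod_pair h3]
    have h4 := hhalf (2 * n * n + 1) (by nlinarith)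
    have h5 := hhalf (2 * (2 * n) * n + 1) (by nlinarith)
    nlinarith
  have h2 : 0 ≤ ∏ m ∈ T n, (1 - level Q m) := prod_nonneg (fun m _ => by linarith [level_le_one Q m])
  nlinarith

theorem freeT_up (hA : IsModel μ (level Q) A) (hQ : 1 ≤ Q) {ε : ℝ} (hε : 0 < ε) (hε1 : ε < 1) : ∀ᶠ n : ℕ in atTop,
    n.Coprime Q → μ.real (free A (T n)) ≤ 4 * Real.exp (-((1 - ε) * cQ Q * h n)) := by
  filter_upwards [hl.eventually_ge_atTop (2 * qq Q), hl.eventually_ge_atTop (3 / ε), hl.eventually_ge_atTop 1,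
    (tendsto_natCast_atTop_atTop (R := ℝ)).eventually_ge_atTop (Q / ε), eventually_ge_atTop 2] with n h1 h2 h2' h3 h4 hco
  have hn0 : (0 : ℝ) < n := by exact_mod_cast (by omega : 0 < n)
  have hn2 : (2 : ℝ) ≤ n := by exact_mod_cast h4
  have hc := cQ_pos Q
  have hq := qq_pos hQ
  refine (free_T_le hA hQ h4 h1).trans (mul_le_mul_of_nonneg_left ?_ (by norm_num))
  have e0 : Real.log (n : ℝ) ≤ Real.log ((2 * n : ℕ) : ℝ) := Real.log_le_log hn0 (by push_cast; linarith)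
  refine (freeS_le hA hQ hco (by linarith) (by linarith) (by omega)).trans ?_
  rw [Real.exp_le_exp, neg_le_neg_iff]
  push_cast
  have e1 : (2 * (n : ℝ)) * (2 * n + 1 + 1) ≤ n ^ 2 * 8 := by nlinarith
  have e2 := Real.log_le_log (by positivity) e1
  rw [Real.log_mul (x := (n : ℝ) ^ 2) (y := 8) (by positivity) (by norm_num), Real.log_pow] at e2
  push_cast at e2
  have e3 : Real.log 8 < 3 := by
    rw [show (8 : ℝ) = 2 ^ 3 by norm_num, Real.log_pow]
    have := Real.log_two_lt_d9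
    push_cast
    linarith
  have e4 : 0 < Real.log ((2 * (n : ℝ)) * (2 * n + 1 + 1)) := Real.log_pos (by nlinarith)
  rw [div_le_iff₀ hε] at h2 h3
  unfold h
  rw [← mul_div_assoc, div_le_div_iff₀ (by linarith) e4]
  have e5 : (1 - ε) * cQ Q * n * Real.log ((2 * (n : ℝ)) * (2 * n + 1 + 1)) ≤ (1 - ε) * cQ Q * n * (2 * Real.log n + 3) :=
    mul_le_mul_of_nonneg_left (by linarith) (mul_nonneg (mul_nonneg (by linarith) hc.le) hn0.le)
  refine e5.trans ?_
  have e6 : (1 - ε) * n * (2 * Real.log n + 3) ≤ (2 * n + 1 - Q) * Real.log n := by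
    have f1 : 3 * (n : ℝ) ≤ Real.log n * ε * n := mul_le_mul_of_nonneg_right h2 hn0.le
    have f2 : Q * Real.log (n : ℝ) ≤ n * ε * Real.log n := mul_le_mul_of_nonneg_right h3 (by linarith)
    nlinarith
  calc (1 - ε) * cQ Q * n * (2 * Real.log n + 3) = cQ Q * ((1 - ε) * n * (2 * Real.log n + 3)) := by ring
    _ ≤ cQ Q * ((2 * n + 1 - Q) * Real.log n) := mul_le_mul_of_nonneg_left e6 hc.le
    _ = _ := by ring

/-- the split of the multipliers -/
theorem S_split {n M1 M : ℕ} (hM : M1 + 1 ≤ M) : S n M = S n M1 ∪ cls (2 * (M1 + 1) * n + 1) (2 * n) (M - (M1 + 1)) := by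
  ext m
  rw [mem_union, mem_S, mem_S, mem_cls]
  constructor
  · rintro ⟨k, h1, h2, rfl⟩
    rcases le_or_gt k M1 with h3 | h3
    · exact Or.inl ⟨k, h1, h3, rfl⟩
    · refine Or.inr ⟨k - (M1 + 1), by omega, ?_⟩
      obtain ⟨j, rfl⟩ : ∃ j, k = M1 + 1 + j := ⟨k - (M1 + 1), by omega⟩
      rw [Nat.add_sub_cancel_left]
      ring
  · rintro (⟨k, h1, h2, rfl⟩ | ⟨k, h1, rfl⟩)
    · exact ⟨k, h1, by omega, rfl⟩
    · exact ⟨M1 + 1 + k, by omega, by omega, by ring⟩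

theorem freeS_low (hA : IsModel μ (level Q) A) (hQ : 1 ≤ Q) {ε : ℝ} (hε : 0 < ε) (hε1 : ε ≤ 1) : ∀ᶠ n : ℕ in atTop,
    n.Coprime Q → Real.exp (-((1 + ε) * cQ Q * h n)) ≤ μ.real (free A (S n (2 * n + 1))) := by
  obtain ⟨θ, hθ⟩ : ∃ θ : ℝ, θ = ε / 8 := ⟨_, rfl⟩
  have hθ0 : 0 < θ := by rw [hθ]; linarith
  have hθ1 : θ ≤ 1 / 8 := by rw [hθ]; linarith
  have hq := qq_pos hQ
  have hc := cQ_pos Q
  have hc2 := cQ_le Q
  have hc1 := one_le_cQ Q
  filter_upwards [hl.eventually_ge_atTop (2 * qq Q / θ), hl.eventually_ge_atTop 1,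
    (tendsto_natCast_atTop_atTop (R := ℝ)).eventually_ge_atTop ((1 + Q) / θ),
    ((tendsto_rpow_atTop hθ0).comp tendsto_natCast_atTop_atTop).eventually_ge_atTop (8 / θ),
    eventually_ge_atTop 2] with n h1 h2 h3 h4 h5 hco
  have hn0 : (0 : ℝ) < n := by exact_mod_cast (by omega : 0 < n)
  have hn1 : (1 : ℝ) ≤ n := by exact_mod_cast (by omega : 1 ≤ n)
  have hL : 0 < Real.log (n : ℝ) := by linarith
  rw [div_le_iff₀ hθ0] at h1 h3
  obtain ⟨M1, hM1⟩ : ∃ M1 : ℕ, M1 = ⌊(n : ℝ) ^ (1 - θ)⌋₊ := ⟨_, rfl⟩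
  have hpow : 0 < (n : ℝ) ^ (1 - θ) := Real.rpow_pos_of_pos hn0 _
  have m1 : (M1 : ℝ) ≤ (n : ℝ) ^ (1 - θ) := by rw [hM1]; exact Nat.floor_le hpow.le
  have m2 : (n : ℝ) ^ (1 - θ) < M1 + 1 := by rw [hM1]; exact Nat.lt_floor_add_one _
  have hnθ : (n : ℝ) ^ (1 - θ) * (n : ℝ) ^ θ = n := by
    rw [← Real.rpow_add hn0, sub_add_cancel, Real.rpow_one]
  have h4' : 8 / θ ≤ (n : ℝ) ^ θ := h4
  have m3 : (n : ℝ) ^ (1 - θ) ≤ θ / 8 * n := by
    rw [div_le_iff₀ hθ0] at h4'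
    nlinarith
  have m4 : M1 + 1 ≤ 2 * n + 1 := by
    have : (M1 : ℝ) ≤ n := by nlinarith
    have : M1 ≤ n := by exact_mod_cast this
    omega
  obtain ⟨x, hx⟩ : ∃ x : ℝ, x = (n : ℝ) ^ (2 - θ) := ⟨_, rfl⟩
  have hx0 : 0 < x := by rw [hx]; exact Real.rpow_pos_of_pos hn0 _
  have hlx : Real.log x = (2 - θ) * Real.log n := by rw [hx, Real.log_rpow hn0]
  have hqθ : 2 * qq Q ≤ θ * Real.log n := by linarith
  have b1 := le_freeS hA hQ hco (M := M1) hn0 le_rfl (show 2 * qq Q ≤ Real.log (n : ℝ) by nlinarith)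
  have b2 := le_free hA hQ (a := 2 * (M1 + 1) * n + 1) (d := 2 * n) (M := 2 * n + 1 - (M1 + 1)) (x := x) hx0 (by
    have e1 : x = (n : ℝ) ^ (1 - θ) * n := by
      rw [hx]
      nth_rewrite 3 [← Real.rpow_one (n : ℝ)]
      rw [← Real.rpow_add hn0]
      congr 1
      ring
    rw [e1]
    push_cast
    nlinarith) (by omega) (by rw [hlx]; nlinarith)
  rw [dens_eq' hQ hco (show Odd (2 * (M1 + 1) * n + 1) by rw [mul_assoc]; exact odd_two_mul_add_one _), hlx] at b2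
  have b3 : μ.real (free A (S n (2 * n + 1))) = μ.real (free A (S n M1)) *
      μ.real (free A (cls (2 * (M1 + 1) * n + 1) (2 * n) (2 * n + 1 - (M1 + 1)))) := by
    rw [S_split m4, real_free hA, real_free hA, real_free hA, prod_union]
    rw [Finset.disjoint_left]
    intro m hm1 hm2
    rw [mem_S] at hm1
    rw [mem_cls] at hm2
    obtain ⟨k, k1, k2, rfl⟩ := hm1
    obtain ⟨j, j1, j2⟩ := hm2
    have e1 : k * n = (M1 + 1 + j) * n := by nlinarith
    have e2 := Nat.eq_of_mul_eq_mul_right (by omega) e1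
    omega
  rw [b3]
  refine le_trans ?_ (mul_le_mul b1 b2 (Real.exp_pos _).le measureReal_nonneg)
  rw [← Real.exp_add, Real.exp_le_exp]
  have f1 : qq Q / Real.log n ≤ θ / 2 := by
    rw [div_le_iff₀ hL]
    linarith
  have f2 : qq Q / ((2 - θ) * Real.log n) ≤ θ / 2 := by
    rw [div_le_iff₀ (mul_pos (by linarith) hL)]
    nlinarith
  -- the first exponent
  have g1 : (1 + 2 * (qq Q / Real.log n)) * (((M1 : ℝ) + Q) * cQ Q / Real.log n) ≤ 2 * θ * cQ Q * h n := by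
    have e1 : ((M1 : ℝ) + Q) ≤ 9 / 8 * θ * n := by nlinarith
    have e2 : ((M1 : ℝ) + Q) * cQ Q / Real.log n ≤ 9 / 8 * θ * n * cQ Q / Real.log n := by gcongr
    have e3 : 0 ≤ 9 / 8 * θ * n * cQ Q / Real.log n := by positivity
    have e4 : 0 ≤ ((M1 : ℝ) + Q) * cQ Q / Real.log n := by positivity
    have e5 : (1 + 2 * (qq Q / Real.log n)) ≤ 9 / 8 := by linarith
    calc (1 + 2 * (qq Q / Real.log n)) * (((M1 : ℝ) + Q) * cQ Q / Real.log n) ≤ 9 / 8 * (9 / 8 * θ * n * cQ Q / Real.log n) :=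
          mul_le_mul e5 e2 e4 (by norm_num)
      _ = 81 / 64 * θ * cQ Q * h n := by unfold h; ring
      _ ≤ 2 * θ * cQ Q * h n := by
        have : 0 ≤ θ * cQ Q * h n := by unfold h; positivity
        nlinarith
  have g2 : (1 + 2 * (qq Q / ((2 - θ) * Real.log n))) * ((((2 * n + 1 - (M1 + 1) : ℕ) : ℝ) + 1 + Q) * cQ Q / ((2 - θ) * Real.log n)) ≤
      (1 + 4 * θ) * cQ Q * h n := by
    have e0 : ((2 * n + 1 - (M1 + 1) : ℕ) : ℝ) ≤ 2 * n := by
      have : 2 * n + 1 - (M1 + 1) ≤ 2 * n := by omega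
      exact_mod_cast this
    have e1 : ((2 * n + 1 - (M1 + 1) : ℕ) : ℝ) + 1 + Q ≤ (2 + θ) * n := by linarith
    have e2 : (((2 * n + 1 - (M1 + 1) : ℕ) : ℝ) + 1 + Q) * cQ Q / ((2 - θ) * Real.log n) ≤
        (2 + θ) * n * cQ Q / ((2 - θ) * Real.log n) := by
      apply div_le_div_of_nonneg_right _ (mul_pos (by linarith) hL).le
      exact mul_le_mul_of_nonneg_right e1 hc.le
    have e3 : (2 + θ) * n * cQ Q / ((2 - θ) * Real.log n) ≤ (1 + 2 * θ) * cQ Q * h n := by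
      rw [div_le_iff₀ (mul_pos (by linarith) hL)]
      unfold h
      have e4 : (1 + 2 * θ) * cQ Q * (n / Real.log n) * ((2 - θ) * Real.log n) = (1 + 2 * θ) * (2 - θ) * (cQ Q * n) := by
        field_simp
      rw [e4]
      have e5 : (2 + θ) * (cQ Q * n) ≤ (1 + 2 * θ) * (2 - θ) * (cQ Q * n) := by
        apply mul_le_mul_of_nonneg_right _ (by positivity)
        nlinarith
      linarith
    have e4 : 0 ≤ (((2 * n + 1 - (M1 + 1) : ℕ) : ℝ) + 1 + Q) * cQ Q / ((2 - θ) * Real.log n) :=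
      div_nonneg (by positivity) (mul_pos (by linarith) hL).le
    have e5 : 1 + 2 * (qq Q / ((2 - θ) * Real.log n)) ≤ 1 + θ := by linarith
    have e6 : 0 ≤ cQ Q * h n := by unfold h; positivity
    calc _ ≤ (1 + θ) * ((1 + 2 * θ) * cQ Q * h n) := mul_le_mul e5 (e2.trans e3) e4 (by linarith)
      _ = (1 + θ) * (1 + 2 * θ) * (cQ Q * h n) := by ring
      _ ≤ (1 + 4 * θ) * (cQ Q * h n) := by
        apply mul_le_mul_of_nonneg_right _ e6
        nlinarith
      _ = _ := by ring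
  have g3 : (1 + ε) * cQ Q * h n = (1 + 8 * θ) * cQ Q * h n := by rw [hθ]; ring
  have g4 : 0 ≤ θ * cQ Q * h n := by unfold h; positivity
  rw [g3]
  nlinarith

/-- failure beyond `N` -/
def Fl (A : Ω → Set ℕ) (N : ℕ) : Set Ω :=
  {ω | ∃ n : ℕ, N ≤ n ∧ n ∈ A ω ∧ ∀ k : ℕ, 1 ≤ k → k < 2 * (n + 1) → ¬ n ∣ k → 2 * k * n + 1 ∉ A ω}

theorem fl_le (hA : IsModel μ (level Q) A) (hQ : 1 ≤ Q) {ε : ℝ} (hε : 0 < ε) (hε1 : ε < 1) : ∀ᶠ N : ℕ in atTop,
    μ.real (Fl A N) ≤ Real.exp (-((1 - ε) * cQ Q * h N)) := by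
  have hc := cQ_pos Q
  obtain ⟨n0, hn0⟩ := eventually_atTop.1 ((freeT_up hA hQ (show 0 < ε / 2 by linarith) (by linarith)).and
    ((h_big (show 0 < ε / 2 * cQ Q by positivity)).and (eventually_ge_atTop 2)))
  have htail : ∀ᶠ N : ℕ in atTop, ∑' k : ℕ, ((k + N : ℕ) : ℝ) ^ (-2 : ℝ) ≤ 1 := by
    have h := tendsto_sum_nat_add (fun n : ℕ => (n : ℝ) ^ (-2 : ℝ))
    filter_upwards [h.eventually_lt_const (show (0 : ℝ) < 1 by norm_num)] with N hN
    exact hN.le
  filter_upwards [h_mono, htail, eventually_ge_atTop n0] with N h1 h2 h3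
  obtain ⟨D, hD⟩ : ∃ D : ℕ → Set Ω, D = fun (k : ℕ) => {ω | k + N ∈ A ω} ∩ free A (T (k + N)) := ⟨_, rfl⟩
  obtain ⟨M, hM⟩ : ∃ M : ℝ, M = Real.exp (-((1 - ε) * cQ Q * h N)) := ⟨_, rfl⟩
  rw [← hM]
  have hM0 : 0 < M := by rw [hM]; exact Real.exp_pos _
  have hDb : ∀ k, μ (D k) ≤ ENNReal.ofReal (M * ((k + N : ℕ) : ℝ) ^ (-2 : ℝ)) := by
    intro k
    obtain ⟨e1, e2, e3⟩ := hn0 (k + N) (by omega)
    rw [← ofReal_measureReal]
    refine ENNReal.ofReal_le_ofReal ?_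
    by_cases hco : (k + N).Coprime Q
    · have e4 : μ.real (D k) ≤ μ.real (free A (T (k + N))) := by
        rw [hD]
        exact measureReal_mono Set.inter_subset_right
      refine e4.trans ((e1 hco).trans ?_)
      have e5 : -((1 - ε / 2) * cQ Q * h (k + N)) = -((1 - ε) * cQ Q * h (k + N)) + -(ε / 2 * cQ Q * h (k + N)) := by ring
      rw [e5, Real.exp_add]
      have e6 : Real.exp (-((1 - ε) * cQ Q * h (k + N))) ≤ M := by
        rw [hM, Real.exp_le_exp, neg_le_neg_iff]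
        exact mul_le_mul_of_nonneg_left (h1 _ (by omega)) (mul_nonneg (by linarith) hc.le)
      calc 4 * (Real.exp (-((1 - ε) * cQ Q * h (k + N))) * Real.exp (-(ε / 2 * cQ Q * h (k + N))))
          ≤ 4 * (M * (1 / 4 * ((k + N : ℕ) : ℝ) ^ (-2 : ℝ))) := by
            apply mul_le_mul_of_nonneg_left _ (by norm_num)
            exact mul_le_mul e6 e2 (Real.exp_pos _).le hM0.le
        _ = _ := by ring
    · have e4 : μ.real (D k) ≤ μ.real {ω | k + N ∈ A ω} := by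
        rw [hD]
        exact measureReal_mono Set.inter_subset_left
      rw [hA.prob] at e4
      have e5 : level Q (k + N) = 0 := by
        unfold level
        rw [if_neg hco]
      rw [e5] at e4
      exact e4.trans (by positivity)
  have hsub : Fl A N ⊆ ⋃ k, D k := by
    rintro ω ⟨n, hn, hnA, h4⟩
    refine Set.mem_iUnion.2 ⟨n - N, ?_⟩
    rw [hD]
    show ω ∈ {ω | n - N + N ∈ A ω} ∩ free A (T (n - N + N))
    rw [Nat.sub_add_cancel hn]
    refine ⟨hnA, fun m hm => ?_⟩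
    rw [mem_T] at hm
    obtain ⟨k, k1, k2, k3, rfl⟩ := hm
    exact h4 k k1 k2 k3
  have hs : Summable (fun k : ℕ => M * ((k + N : ℕ) : ℝ) ^ (-2 : ℝ)) :=
    ((summable_nat_add_iff N).2 (Real.summable_nat_rpow.2 (by norm_num : (-2 : ℝ) < -1))).mul_left M
  have h5 : μ (Fl A N) ≤ ENNReal.ofReal M := by
    calc μ (Fl A N) ≤ μ (⋃ k, D k) := measure_mono hsub
      _ ≤ ∑' k, μ (D k) := measure_iUnion_le _
      _ ≤ ∑' k, ENNReal.ofReal (M * ((k + N : ℕ) : ℝ) ^ (-2 : ℝ)) := ENNReal.tsum_le_tsum hDb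
      _ = ENNReal.ofReal (∑' k, M * ((k + N : ℕ) : ℝ) ^ (-2 : ℝ)) :=
        (ENNReal.ofReal_tsum_of_nonneg (fun k => mul_nonneg hM0.le (Real.rpow_nonneg (Nat.cast_nonneg _) _)) hs).symm
      _ ≤ ENNReal.ofReal M := by
        refine ENNReal.ofReal_le_ofReal ?_
        rw [tsum_mul_left]
        nlinarith
  exact ENNReal.toReal_le_of_le_ofReal hM0.le h5

theorem le_fl (hA : IsModel μ (level Q) A) (hQ : 1 ≤ Q) {ε : ℝ} (hε : 0 < ε) (hε1 : ε ≤ 1) : ∀ᶠ N : ℕ in atTop,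
    Real.exp (-((1 + ε) * cQ Q * h N)) ≤ μ.real (Fl A N) := by
  have hc := cQ_pos Q
  have hc1 := one_le_cQ Q
  have hQ0 : (0 : ℝ) < Q := by exact_mod_cast hQ
  have hqq1 : 1 ≤ qq Q := by
    unfold qq
    rw [le_div_iff₀ (by exact_mod_cast Nat.totient_pos.2 hQ), one_mul]
    exact_mod_cast Nat.totient_le Q
  obtain ⟨n0, hn0⟩ := eventually_atTop.1 (freeS_low hA hQ (show 0 < ε / 4 by linarith) (by linarith))
  filter_upwards [eventually_ge_atTop n0, hl.eventually_ge_atTop (qq Q), (tendsto_natCast_atTop_atTop (R := ℝ)).eventually_ge_atTop (Q / (ε / 4)),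
    ev_power (4 / ε) 2 (show (0 : ℝ) < 1 by norm_num), eventually_ge_atTop 2] with N h1 h2 h3 h4 h5
  have hN0 : (0 : ℝ) < N := by exact_mod_cast (by omega : 0 < N)
  have hL : 0 < Real.log (N : ℝ) := by linarith
  rw [div_le_iff₀ (by linarith)] at h3
  rw [Real.rpow_one] at h4
  -- a number coprime to Q
  obtain ⟨n, hn1, hn2, hco⟩ : ∃ n : ℕ, N ≤ n ∧ n ≤ N + Q ∧ n.Coprime Q := by
    refine ⟨Q * (N / Q) + Q + 1 - (if Q * (N / Q) + 1 ≥ N then Q else 0), ?_, ?_, ?_⟩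
    · have e1 := Nat.div_add_mod N Q
      have e2 := Nat.mod_lt N (show 0 < Q by omega)
      split_ifs with h6
      · omega
      · omega
    · have e1 := Nat.div_add_mod N Q
      split_ifs with h6
      · omega
      · omega
    · split_ifs with h6
      · have : Q * (N / Q) + Q + 1 - Q = 1 + Q * (N / Q) := by omega
        rw [this]
        simp
      · have : Q * (N / Q) + Q + 1 - 0 = 1 + Q * (N / Q + 1) := by
          rw [Nat.sub_zero]
          ring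
        rw [this]
        simp
  have hn0' : (0 : ℝ) < n := by exact_mod_cast (by omega : 0 < n)
  have hNn : (N : ℝ) ≤ n := by exact_mod_cast hn1
  have hnN : (n : ℝ) ≤ (1 + ε / 4) * N := by
    have : (n : ℝ) ≤ N + Q := by exact_mod_cast hn2
    linarith
  have hln : Real.log (N : ℝ) ≤ Real.log n := Real.log_le_log hN0 hNn
  have b1 := hn0 n (by omega) hco
  have b2 : {ω | n ∈ A ω} ∩ free A (S n (2 * n + 1)) ⊆ Fl A N := by
    rintro ω ⟨g1, g2⟩
    refine ⟨n, hn1, g1, fun k k1 k2 _ => ?_⟩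
    exact mem_free_S.1 g2 k k1 (by omega)
  have b3 : μ.real ({ω | n ∈ A ω} ∩ free A (S n (2 * n + 1))) = level Q n * μ.real (free A (S n (2 * n + 1))) := by
    rw [indep_real hA (S := {n}) (T := (S n (2 * n + 1) : Set ℕ)) ?_ (F_mem (Set.mem_singleton n)) (F_free (fun m hm => hm)),
      hA.prob]
    rw [Set.disjoint_singleton_left]
    exact notMem_S (by omega)
  refine le_trans ?_ (measureReal_mono b2)
  rw [b3]
  have b4 : 1 / Real.log (n : ℝ) ≤ level Q n := by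
    refine le_trans ?_ (le_level (by linarith) (by linarith) hn0' le_rfl le_rfl hco)
    exact div_le_div_of_nonneg_right hqq1 (by linarith)
  have b5 : Real.exp (-(ε / 4 * cQ Q * h N)) ≤ 1 / Real.log (n : ℝ) := by
    rw [one_div, ← Real.exp_log (show 0 < Real.log (n : ℝ) by linarith), ← Real.exp_neg, Real.exp_le_exp, neg_le_neg_iff]
    have e1 : Real.log (Real.log (n : ℝ)) ≤ Real.log n - 1 := Real.log_le_sub_one_of_pos (by linarith)
    have e2 : Real.log (n : ℝ) ≤ Real.log N + 1 := by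
      have e3 : (n : ℝ) ≤ N * 2 := by nlinarith
      have e4 := Real.log_le_log hn0' e3
      rw [Real.log_mul hN0.ne' (by norm_num)] at e4
      have := Real.log_two_lt_d9
      linarith
    have e3 : Real.log (N : ℝ) ≤ ε / 4 * h N := by
      unfold h
      rw [← mul_div_assoc, le_div_iff₀ hL]
      have e4 : ε / 4 * (4 / ε * Real.log (N : ℝ) ^ 2) ≤ ε / 4 * N := mul_le_mul_of_nonneg_left h4 (by linarith)
      have e5 : ε / 4 * (4 / ε * Real.log (N : ℝ) ^ 2) = Real.log N ^ 2 := by field_simp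
      rw [e5] at e4
      linarith
    have e4 : 0 ≤ ε / 4 * h N := by unfold h; positivity
    nlinarith
  have b6 : h n ≤ (1 + ε / 4) * h N := by
    unfold h
    rw [← mul_div_assoc]
    exact div_le_div₀ (by positivity) hnN hL hln
  have b7 : Real.exp (-((1 + ε) * cQ Q * h N)) ≤ Real.exp (-(ε / 4 * cQ Q * h N)) * Real.exp (-((1 + ε / 4) * cQ Q * h n)) := by
    rw [← Real.exp_add, Real.exp_le_exp]
    have e1 : (1 + ε / 4) * cQ Q * h n ≤ (1 + ε / 4) * cQ Q * ((1 + ε / 4) * h N) := mul_le_mul_of_nonneg_left b6 (by positivity)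
    have e2 : 0 ≤ cQ Q * h N := by unfold h; positivity
    have e3 : (1 + ε / 4) * cQ Q * ((1 + ε / 4) * h N) + ε / 4 * cQ Q * h N ≤ (1 + ε) * cQ Q * h N := by
      have e4 : (1 + ε / 4) * (1 + ε / 4) + ε / 4 ≤ 1 + ε := by nlinarith
      have := mul_le_mul_of_nonneg_right e4 e2
      linarith
    linarith
  refine b7.trans (mul_le_mul (b5.trans b4) b1 (Real.exp_pos _).le (level_nonneg _ _))

theorem h_pos : ∀ᶠ N : ℕ in atTop, 0 < h N := by
  filter_upwards [hl.eventually_gt_atTop 0, eventually_gt_atTop 0] with N h1 h2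
  unfold h
  positivity

theorem fl_law (hA : IsModel μ (level Q) A) (hQ : 1 ≤ Q) :
    Tendsto (fun N => Real.log (μ.real (Fl A N)) / h N) atTop (𝓝 (-cQ Q)) := by
  have hc := cQ_pos Q
  have key : ∀ ε : ℝ, 0 < ε → ε < 1 → ∀ᶠ N : ℕ in atTop,
      -cQ Q - ε * cQ Q ≤ Real.log (μ.real (Fl A N)) / h N ∧ Real.log (μ.real (Fl A N)) / h N ≤ -cQ Q + ε * cQ Q := by
    intro ε hε hε1
    filter_upwards [fl_le hA hQ hε hε1, le_fl hA hQ hε hε1.le, h_pos] with N h1 h2 h3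
    have h4 : 0 < μ.real (Fl A N) := lt_of_lt_of_le (Real.exp_pos _) h2
    rw [le_div_iff₀ h3, div_le_iff₀ h3]
    rw [← Real.le_log_iff_exp_le h4] at h2
    rw [← Real.log_le_iff_le_exp h4] at h1
    constructor
    · linarith
    · linarith
  rw [Metric.tendsto_nhds]
  intro r hr
  obtain ⟨ε, h1⟩ : ∃ ε : ℝ, ε = min (1 / 2) (r / 2 / cQ Q) := ⟨_, rfl⟩
  have h2 : 0 < ε := by rw [h1]; exact lt_min (by norm_num) (by positivity)
  have h3 : ε < 1 := by rw [h1]; exact lt_of_le_of_lt (min_le_left _ _) (by norm_num)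
  have h4 : ε * cQ Q ≤ r / 2 := by
    have : ε ≤ r / 2 / cQ Q := by rw [h1]; exact min_le_right _ _
    rwa [le_div_iff₀ hc] at this
  filter_upwards [key ε h2 h3] with N ⟨h5, h6⟩
  rw [Real.dist_eq, abs_lt]
  constructor <;> linarith

end Pool.Agent.Q197.LK
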