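import Pool.Agent.Q197.LK.Count

/-!
# The law of the least multiplier
-/

set_option autoImplicit false
set_option linter.unusedSectionVars false

namespace Pool.Agent.Q197.LK

open Finset MeasureTheory ProbabilityTheory Filter Pool.Agent.Q120.AD Pool.Agent.Q120.GM
open scoped Topology

open Classical in
/-- the facts used below -/
structure Facts (Q : ℕ) (S : Set ℕ) : Prop where
  cop : ∀ n ∈ S, n.Coprime Q
  ex : ∀ lam : ℚ, 1 < lam → ∀ᶠ n : ℕ in atTop, n.Coprime Q → ∃ k, 1 ≤ k ∧ k ≤ Mm Q lam n ∧ 2 * k * n + 1 ∈ S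
  up : ∀ lam ε : ℚ, 0 < lam → lam ≤ 1 → 0 < ε → ∀ᶠ x : ℕ in atTop,
    (((range (x + 1)).filter (fun n => n ∈ S ∧ ∀ k, 1 ≤ k → k ≤ Mm Q lam n → 2 * k * n + 1 ∉ S)).card : ℝ) ≤
      (x : ℝ) ^ (1 - lam + ε : ℝ)
  low : ∀ lam ε : ℚ, 0 < lam → lam < 1 → 0 < ε → ∀ᶠ x : ℕ in atTop,
    (x : ℝ) ^ (1 - lam - ε : ℝ) ≤
      (((range (x + 1)).filter (fun n => n ∈ S ∧ ∀ k, 1 ≤ k → k ≤ Mm Q lam n → 2 * k * n + 1 ∉ S)).card : ℝ)

variable {Ω : Type*} [MeasurableSpace Ω] {μ : Measure Ω} [IsProbabilityMeasure μ] {A : Ω → Set ℕ} {Q : ℕ}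

theorem mem_free_S {n M : ℕ} {ω : Ω} : ω ∈ free A (S n M) ↔ ∀ k, 1 ≤ k → k ≤ M → 2 * k * n + 1 ∉ A ω := by
  constructor
  · intro h k h1 h2
    exact h _ (mem_S.2 ⟨k, h1, h2, rfl⟩)
  · intro h m hm
    obtain ⟨k, h1, h2, rfl⟩ := mem_S.1 hm
    exact h k h1 h2

theorem ae_facts (hA : IsModel μ (level Q) A) (hQ : 1 ≤ Q) : ∀ᵐ ω ∂μ, Facts Q (A ω) := by
  classical
  have h1 : ∀ᵐ ω ∂μ, ∀ n : ℕ, ¬ n.Coprime Q → n ∉ A ω := by
    rw [ae_all_iff]
    intro n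
    by_cases hn : n.Coprime Q
    · exact Eventually.of_forall (fun ω h => absurd hn h)
    · have h2 := hA.prob n
      have h3 : level Q n = 0 := by
        unfold level
        rw [if_neg hn]
      rw [h3, measureReal_eq_zero_iff] at h2
      rw [ae_iff]
      refine measure_mono_null ?_ h2
      intro ω hω
      simp only [Set.mem_ofPred_eq, not_forall, not_not] at hω
      exact hω.2
  have h2 : ∀ᵐ ω ∂μ, ∀ lam : ℚ, 1 < lam → ∀ᶠ n : ℕ in atTop, n.Coprime Q → ∃ k, 1 ≤ k ∧ k ≤ Mm Q lam n ∧ 2 * k * n + 1 ∈ A ω := by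
    rw [ae_all_iff]
    intro lam
    by_cases hlam : 1 < lam
    swap
    · exact Eventually.of_forall (fun ω h => absurd h hlam)
    have hlam' : (1 : ℝ) < lam := by exact_mod_cast hlam
    obtain ⟨δ, hδ⟩ : ∃ δ : ℝ, δ = ((lam : ℝ) - 1) / 2 := ⟨_, rfl⟩
    have hδ0 : 0 < δ := by rw [hδ]; linarith
    have hs : Summable (fun i : ℕ => (i : ℝ) ^ (-((lam : ℝ) - δ))) := Real.summable_nat_rpow.2 (by rw [hδ]; linarith)
    have hb : ∀ᶠ n : ℕ in atTop, μ.real {ω | n.Coprime Q ∧ ω ∈ free A (S n (Mm Q lam n))} ≤ (n : ℝ) ^ (-((lam : ℝ) - δ)) := by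
      filter_upwards [free_up hA hQ (show (0 : ℝ) < lam by linarith) hδ0 (by rw [hδ]; linarith), eventually_ge_atTop 1] with n h3 h4
      by_cases hn : n.Coprime Q
      · refine le_trans (measureReal_mono ?_) (h3 hn)
        intro ω hω
        exact hω.2
      · have : {ω | n.Coprime Q ∧ ω ∈ free A (S n (Mm Q lam n))} = ∅ := by
          ext ω
          simp [hn]
        rw [this, measureReal_empty]
        positivity
    filter_upwards [bc (μ := μ) hs hb] with ω hω _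
    filter_upwards [hω] with n hn hco
    by_contra hcon
    apply hn
    refine ⟨hco, mem_free_S.2 (fun k k1 k2 k3 => hcon ⟨k, k1, k2, k3⟩)⟩
  have h3 : ∀ᵐ ω ∂μ, ∀ lam ε : ℚ, 0 < lam → lam ≤ 1 → 0 < ε → ∀ᶠ x : ℕ in atTop,
      num (range (x + 1)) (E A Q lam) ω ≤ (x : ℝ) ^ (1 - lam + ε : ℝ) := by
    rw [ae_all_iff]
    intro lam
    rw [ae_all_iff]
    intro ε
    by_cases h : 0 < lam ∧ lam ≤ 1 ∧ 0 < ε
    · filter_upwards [num_up hA hQ (lam := lam) (ε := ε) (by exact_mod_cast h.1) (by exact_mod_cast h.2.1)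
        (by exact_mod_cast h.2.2)] with ω hω _ _ _
      exact hω
    · exact Eventually.of_forall (fun ω a b c => absurd ⟨a, b, c⟩ h)
  have h4 : ∀ᵐ ω ∂μ, ∀ lam ε : ℚ, 0 < lam → lam < 1 → 0 < ε → ∀ᶠ x : ℕ in atTop,
      (x : ℝ) ^ (1 - lam - ε : ℝ) ≤ num (range (x + 1)) (E A Q lam) ω := by
    rw [ae_all_iff]
    intro lam
    rw [ae_all_iff]
    intro ε
    by_cases h : 0 < lam ∧ lam < 1 ∧ 0 < ε
    · filter_upwards [num_low hA hQ (lam := lam) (ε := ε) (by exact_mod_cast h.1) (by exact_mod_cast h.2.1)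
        (by exact_mod_cast h.2.2)] with ω hω _ _ _
      exact hω
    · exact Eventually.of_forall (fun ω a b c => absurd ⟨a, b, c⟩ h)
  have hnum : ∀ (lam : ℝ) (ω : Ω) (x : ℕ), num (range (x + 1)) (E A Q lam) ω =
      (((range (x + 1)).filter (fun n => n ∈ A ω ∧ ∀ k, 1 ≤ k → k ≤ Mm Q lam n → 2 * k * n + 1 ∉ A ω)).card : ℝ) := by
    intro lam ω x
    rw [num_card]
    congr 2
    apply filter_congr
    intro n _
    unfold E
    rw [Set.mem_inter_iff, mem_free_S]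
    rfl
  filter_upwards [h1, h2, h3, h4] with ω g1 g2 g3 g4
  refine ⟨fun n hn => ?_, g2, fun lam ε a b c => ?_, fun lam ε a b c => ?_⟩
  · by_contra hcon
    exact g1 n hcon hn
  · filter_upwards [g3 lam ε a b c] with x hx
    rw [← hnum]
    exact hx
  · filter_upwards [g4 lam ε a b c] with x hx
    rw [← hnum]
    exact hx

/-- the least multiplier -/
noncomputable def kk (S : Set ℕ) (n : ℕ) : ℕ := sInf {k | 1 ≤ k ∧ 2 * k * n + 1 ∈ S}

theorem log_two_mul {η : ℝ} (hη : 0 < η) : ∀ᶠ n : ℕ in atTop, Real.log ((2 * n : ℕ) : ℝ) ^ 2 ≤ (1 + η) * Real.log n ^ 2 := by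
  have h2 := Real.log_two_lt_d9
  have h20 : 0 < Real.log 2 := Real.log_pos (by norm_num)
  filter_upwards [hl.eventually_ge_atTop 1, hl.eventually_ge_atTop (3 / η), eventually_ge_atTop 1] with n h1 h3 h4
  have hn0 : (0 : ℝ) < n := by exact_mod_cast h4
  push_cast
  rw [Real.log_mul (by norm_num) hn0.ne']
  rw [div_le_iff₀ hη] at h3
  nlinarith

theorem log_two_mul_ge : ∀ᶠ n : ℕ in atTop, Real.log (n : ℝ) ^ 2 ≤ Real.log ((2 * n : ℕ) : ℝ) ^ 2 := by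
  filter_upwards [hl.eventually_ge_atTop 1, eventually_ge_atTop 1] with n h1 h4
  have hn0 : (0 : ℝ) < n := by exact_mod_cast h4
  have h2 : Real.log (n : ℝ) ≤ Real.log ((2 * n : ℕ) : ℝ) := by
    refine Real.log_le_log hn0 ?_
    push_cast
    linarith
  exact pow_le_pow_left₀ (by linarith) h2 2

theorem Mm_le {lam lam' : ℝ} (h0 : 0 < lam) (h : lam < lam') : ∀ᶠ n : ℕ in atTop,
    (Mm Q lam n : ℝ) ≤ lam' * Real.log n ^ 2 / cQ Q := by
  have hc := cQ_pos Q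
  filter_upwards [log_two_mul (show 0 < lam' / lam - 1 by rw [sub_pos, one_lt_div h0]; exact h)] with n h1
  have e1 : (Mm Q lam n : ℝ) ≤ lam * Real.log ((2 * n : ℕ) : ℝ) ^ 2 / cQ Q := by
    unfold Mm
    exact Nat.floor_le (by positivity)
  refine e1.trans ?_
  apply div_le_div_of_nonneg_right _ hc.le
  have e2 := mul_le_mul_of_nonneg_left h1 h0.le
  refine e2.trans (le_of_eq ?_)
  field_simp
  ring

theorem le_Mm {lam lam' : ℝ} (h0 : 0 < lam) (h : lam' < lam) : ∀ᶠ n : ℕ in atTop,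
    lam' * Real.log n ^ 2 / cQ Q < Mm Q lam n := by
  have hc := cQ_pos Q
  have hc2 := cQ_le Q
  filter_upwards [log_two_mul_ge, hl.eventually_ge_atTop 1, hl.eventually_ge_atTop (3 / (lam - lam'))] with n h1 h2 h3
  rw [div_le_iff₀ (by linarith)] at h3
  have e1 : lam * Real.log ((2 * n : ℕ) : ℝ) ^ 2 / cQ Q < Mm Q lam n + 1 := by
    unfold Mm
    exact Nat.lt_floor_add_one _
  have e2 : lam * Real.log n ^ 2 / cQ Q ≤ lam * Real.log ((2 * n : ℕ) : ℝ) ^ 2 / cQ Q := by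
    apply div_le_div_of_nonneg_right _ hc.le
    exact mul_le_mul_of_nonneg_left h1 h0.le
  have e3 : lam' * Real.log n ^ 2 / cQ Q + 1 ≤ lam * Real.log n ^ 2 / cQ Q := by
    rw [div_add_one hc.ne']
    apply div_le_div_of_nonneg_right _ hc.le
    nlinarith
  linarith

variable {S' : Set ℕ}

/-- the multiplier exists and is not large -/
theorem kk_le (F : Facts Q S') {ε : ℝ} (hε : 0 < ε) : ∀ᶠ n : ℕ in atTop, n.Coprime Q →
    1 ≤ kk S' n ∧ 2 * kk S' n * n + 1 ∈ S' ∧ (kk S' n : ℝ) ≤ (1 + ε) * Real.log n ^ 2 / cQ Q := by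
  obtain ⟨lam, h1, h2⟩ := exists_rat_btwn (show (1 : ℝ) < 1 + ε by linarith)
  filter_upwards [F.ex lam (by exact_mod_cast h1), Mm_le (Q := Q) (show (0 : ℝ) < lam by linarith) h2] with n h3 h4 hco
  obtain ⟨k, k1, k2, k3⟩ := h3 hco
  have hmem : k ∈ {k | 1 ≤ k ∧ 2 * k * n + 1 ∈ S'} := ⟨k1, k3⟩
  have h5 : kk S' n ∈ {k | 1 ≤ k ∧ 2 * k * n + 1 ∈ S'} := Nat.sInf_mem ⟨_, hmem⟩
  refine ⟨h5.1, h5.2, le_trans ?_ h4⟩
  have : kk S' n ≤ k := Nat.sInf_le hmem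
  exact_mod_cast this.trans k2

theorem free_iff (F : Facts Q S') : ∀ᶠ n : ℕ in atTop, n.Coprime Q → ∀ M : ℕ,
    ((∀ k, 1 ≤ k → k ≤ M → 2 * k * n + 1 ∉ S') ↔ M < kk S' n) := by
  filter_upwards [kk_le F one_pos] with n h1 hco M
  obtain ⟨a1, a2, _⟩ := h1 hco
  constructor
  · intro h
    by_contra hcon
    exact h _ a1 (by omega) a2
  · intro h k k1 k2 k3
    have : kk S' n ≤ k := Nat.sInf_le ⟨k1, k3⟩
    omega

/-- the exceptional elements -/
def exc (S : Set ℕ) (c lam : ℝ) (x : ℕ) : Set ℕ := {n | n ≤ x ∧ n ∈ S ∧ lam * Real.log n ^ 2 / c < kk S n}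

theorem exc_finite (S : Set ℕ) (c lam : ℝ) (x : ℕ) : (exc S c lam x).Finite :=
  (Set.finite_Iic x).subset (fun _ hn => hn.1)

theorem exc_up (F : Facts Q S') {lam ε : ℝ} (h0 : 0 < lam) (h1 : lam < 1) (hε : 0 < ε) : ∀ᶠ x : ℕ in atTop,
    ((exc S' (cQ Q) lam x).ncard : ℝ) ≤ (x : ℝ) ^ (1 - lam + ε) := by
  classical
  obtain ⟨q, hq1, hq2⟩ := exists_rat_btwn (show max (lam / 2) (lam - ε / 4) < lam from max_lt (by linarith) (by linarith))
  rw [max_lt_iff] at hq1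
  obtain ⟨r, hr1, hr2⟩ := exists_rat_btwn (show (0 : ℝ) < ε / 4 by linarith)
  have hq0 : (0 : ℝ) < q := by linarith
  obtain ⟨n0, hn0⟩ := eventually_atTop.1 ((free_iff F).and (Mm_le (Q := Q) hq0 hq2))
  have e1 := F.up q r (by exact_mod_cast hq0) (by exact_mod_cast (by linarith : (q : ℝ) ≤ 1)) (by exact_mod_cast hr1)
  have hge : ∀ᶠ x : ℕ in atTop, ((n0 : ℝ) + 1) ≤ (x : ℝ) ^ (ε / 4) :=
    ((tendsto_rpow_atTop (show 0 < ε / 4 by linarith)).comp tendsto_natCast_atTop_atTop).eventually_ge_atTop _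
  filter_upwards [e1, hge, eventually_ge_atTop 1] with x h2 h3 hx
  have hx1 : (1 : ℝ) ≤ x := by exact_mod_cast hx
  have hx0 : (0 : ℝ) < x := by linarith
  have hsub : exc S' (cQ Q) lam x ⊆ ((range n0 ∪ (range (x + 1)).filter
      (fun n => n ∈ S' ∧ ∀ k, 1 ≤ k → k ≤ Mm Q q n → 2 * k * n + 1 ∉ S') : Finset ℕ) : Set ℕ) := by
    rintro n ⟨m1, m2, m3⟩
    rw [mem_coe, mem_union, mem_range, mem_filter, mem_range]
    by_cases h4 : n < n0
    · exact Or.inl h4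
    · refine Or.inr ⟨by omega, m2, ?_⟩
      obtain ⟨g1, g2⟩ := hn0 n (by omega)
      refine (g1 (F.cop n m2) _).2 ?_
      exact_mod_cast lt_of_le_of_lt g2 m3
  have h4 := (Set.ncard_le_ncard hsub (finite_toSet _)).trans (le_of_eq (Set.ncard_coe_finset _))
  have h5 : ((exc S' (cQ Q) lam x).ncard : ℝ) ≤ n0 + (x : ℝ) ^ (1 - q + r : ℝ) := by
    have h6 : (exc S' (cQ Q) lam x).ncard ≤ n0 + ((range (x + 1)).filter
      (fun n => n ∈ S' ∧ ∀ k, 1 ≤ k → k ≤ Mm Q q n → 2 * k * n + 1 ∉ S')).card := by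
      refine h4.trans ((card_union_le _ _).trans ?_)
      rw [card_range]
    have h7 : ((exc S' (cQ Q) lam x).ncard : ℝ) ≤ n0 + (((range (x + 1)).filter
      (fun n => n ∈ S' ∧ ∀ k, 1 ≤ k → k ≤ Mm Q q n → 2 * k * n + 1 ∉ S')).card : ℝ) := by exact_mod_cast h6
    linarith
  refine h5.trans ?_
  have h6 : (x : ℝ) ^ (1 - q + r : ℝ) ≤ (x : ℝ) ^ (1 - lam + 3 * ε / 4) :=
    Real.rpow_le_rpow_of_exponent_le hx1 (by linarith [hq1.2])
  have h7 : (x : ℝ) ^ (1 - lam + ε) = (x : ℝ) ^ (1 - lam + 3 * ε / 4) * (x : ℝ) ^ (ε / 4) := by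
    rw [← Real.rpow_add hx0]
    congr 1
    ring
  have h8 : 1 ≤ (x : ℝ) ^ (1 - lam + 3 * ε / 4) := Real.one_le_rpow hx1 (by linarith)
  rw [h7]
  have h9 : (0 : ℝ) ≤ n0 := Nat.cast_nonneg n0
  nlinarith

theorem exc_low (F : Facts Q S') {lam ε : ℝ} (h0 : 0 < lam) (h1 : lam < 1) (hε : 0 < ε) : ∀ᶠ x : ℕ in atTop,
    (x : ℝ) ^ (1 - lam - ε) ≤ ((exc S' (cQ Q) lam x).ncard : ℝ) := by
  classical
  obtain ⟨q, hq1, hq2⟩ := exists_rat_btwn (show lam < min ((lam + 1) / 2) (lam + min (ε / 4) ((1 - lam) / 4)) from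
    lt_min (by linarith) (by
      have : 0 < min (ε / 4) ((1 - lam) / 4) := lt_min (by linarith) (by linarith)
      linarith))
  rw [lt_min_iff] at hq2
  have hm1 : min (ε / 4) ((1 - lam) / 4) ≤ ε / 4 := min_le_left _ _
  have hm2 : min (ε / 4) ((1 - lam) / 4) ≤ (1 - lam) / 4 := min_le_right _ _
  obtain ⟨r, hr1, hr2⟩ := exists_rat_btwn (show (0 : ℝ) < min (ε / 4) ((1 - lam) / 4) from lt_min (by linarith) (by linarith))
  have hq0 : (0 : ℝ) < q := by linarith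
  obtain ⟨n0, hn0⟩ := eventually_atTop.1 ((free_iff F).and (le_Mm (Q := Q) hq0 hq1))
  have e1 := F.low q r (by exact_mod_cast hq0) (by exact_mod_cast (by linarith [hq2.1] : (q : ℝ) < 1)) (by exact_mod_cast hr1)
  obtain ⟨κ, hκ⟩ : ∃ κ : ℝ, κ = min (ε / 4) ((1 - lam) / 4) := ⟨_, rfl⟩
  have hκ0 : 0 < κ := by rw [hκ]; exact lt_min (by linarith) (by linarith)
  have hge : ∀ᶠ x : ℕ in atTop, ((n0 : ℝ) + 1) ≤ (x : ℝ) ^ κ :=
    ((tendsto_rpow_atTop hκ0).comp tendsto_natCast_atTop_atTop).eventually_ge_atTop _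
  filter_upwards [e1, hge, eventually_ge_atTop 1] with x h2 h3 hx
  have hx1 : (1 : ℝ) ≤ x := by exact_mod_cast hx
  have hx0 : (0 : ℝ) < x := by linarith
  have hsub : (((range (x + 1)).filter (fun n => n ∈ S' ∧ ∀ k, 1 ≤ k → k ≤ Mm Q q n → 2 * k * n + 1 ∉ S') \ range n0 : Finset ℕ) : Set ℕ) ⊆
      exc S' (cQ Q) lam x := by
    intro n hn
    rw [mem_coe, Finset.mem_sdiff, mem_range, mem_filter, mem_range] at hn
    obtain ⟨⟨m1, m2, m3⟩, m4⟩ := hn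
    obtain ⟨g1, g2⟩ := hn0 n (by omega)
    refine ⟨by omega, m2, lt_trans g2 ?_⟩
    exact_mod_cast (g1 (F.cop n m2) _).1 m3
  have h4 := (le_of_eq (Set.ncard_coe_finset _).symm).trans (Set.ncard_le_ncard hsub (exc_finite _ _ _ _))
  have h5 := le_card_sdiff (range n0) ((range (x + 1)).filter (fun n => n ∈ S' ∧ ∀ k, 1 ≤ k → k ≤ Mm Q q n → 2 * k * n + 1 ∉ S'))
  rw [card_range] at h5
  have h6 : ((range (x + 1)).filter (fun n => n ∈ S' ∧ ∀ k, 1 ≤ k → k ≤ Mm Q q n → 2 * k * n + 1 ∉ S')).card ≤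
      (exc S' (cQ Q) lam x).ncard + n0 := by omega
  have h7 : (((range (x + 1)).filter (fun n => n ∈ S' ∧ ∀ k, 1 ≤ k → k ≤ Mm Q q n → 2 * k * n + 1 ∉ S')).card : ℝ) ≤
      (exc S' (cQ Q) lam x).ncard + n0 := by exact_mod_cast h6
  have h8 : (x : ℝ) ^ (1 - lam - 2 * κ) ≤ (x : ℝ) ^ (1 - q - r : ℝ) := by
    refine Real.rpow_le_rpow_of_exponent_le hx1 ?_
    rw [← hκ] at hq2 hr2
    linarith [hq2.2]
  have h9 : (x : ℝ) ^ (1 - lam - 2 * κ) = (x : ℝ) ^ (1 - lam - 3 * κ) * (x : ℝ) ^ κ := by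
    rw [← Real.rpow_add hx0]
    congr 1
    ring
  rw [← hκ] at hm1 hm2
  have h10 : (x : ℝ) ^ (1 - lam - ε) ≤ (x : ℝ) ^ (1 - lam - 3 * κ) := by
    refine Real.rpow_le_rpow_of_exponent_le hx1 ?_
    linarith
  have h11 : 1 ≤ (x : ℝ) ^ (1 - lam - 3 * κ) := Real.one_le_rpow hx1 (by linarith)
  have h12 : (0 : ℝ) ≤ n0 := Nat.cast_nonneg n0
  nlinarith

/-- Every value between two levels occurs infinitely often. -/
theorem between (F : Facts Q S') {l1 l2 : ℝ} (h0 : 0 < l1) (h1 : l1 < l2) (h2 : l2 < 1) :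
    ∃ᶠ n : ℕ in atTop, n ∈ S' ∧ l1 * Real.log n ^ 2 / cQ Q < kk S' n ∧ (kk S' n : ℝ) ≤ l2 * Real.log n ^ 2 / cQ Q := by
  rw [Filter.Frequently]
  intro hcon
  obtain ⟨n0, hn0⟩ := eventually_atTop.1 hcon
  obtain ⟨ε, hε⟩ : ∃ ε : ℝ, ε = min ((l2 - l1) / 4) ((1 - l1) / 4) := ⟨_, rfl⟩
  have hε0 : 0 < ε := by rw [hε]; exact lt_min (by linarith) (by linarith)
  have hε1 : ε ≤ (l2 - l1) / 4 := by rw [hε]; exact min_le_left _ _
  have hε2 : ε ≤ (1 - l1) / 4 := by rw [hε]; exact min_le_right _ _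
  have hge : ∀ᶠ x : ℕ in atTop, ((n0 : ℝ) + 2) ≤ (x : ℝ) ^ ε :=
    ((tendsto_rpow_atTop hε0).comp tendsto_natCast_atTop_atTop).eventually_ge_atTop _
  obtain ⟨x, h3, h4, h5, hx⟩ := ((exc_low F h0 (by linarith) hε0).and ((exc_up F (show 0 < l2 by linarith) h2 hε0).and
    (hge.and (eventually_ge_atTop 1)))).exists
  have hx1 : (1 : ℝ) ≤ x := by exact_mod_cast hx
  have hx0 : (0 : ℝ) < x := by linarith
  have hsub : exc S' (cQ Q) l1 x ⊆ Set.Iio n0 ∪ exc S' (cQ Q) l2 x := by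
    rintro n ⟨m1, m2, m3⟩
    by_cases h6 : n < n0
    · exact Or.inl h6
    · refine Or.inr ⟨m1, m2, ?_⟩
      by_contra hcon2
      exact hn0 n (by omega) ⟨m2, m3, by linarith⟩
  have h6 := (Set.ncard_le_ncard hsub ((Set.finite_Iio n0).union (exc_finite _ _ _ _))).trans (Set.ncard_union_le _ _)
  have h7 : (Set.Iio n0).ncard = n0 := by
    rw [← coe_range, Set.ncard_coe_finset, card_range]
  rw [h7] at h6
  have h8 : ((exc S' (cQ Q) l1 x).ncard : ℝ) ≤ n0 + (exc S' (cQ Q) l2 x).ncard := by exact_mod_cast h6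
  have h9 : (x : ℝ) ^ (1 - l1 - ε) = (x : ℝ) ^ (1 - l1 - 2 * ε) * (x : ℝ) ^ ε := by
    rw [← Real.rpow_add hx0]
    congr 1
    ring
  have h10 : (x : ℝ) ^ (1 - l2 + ε) ≤ (x : ℝ) ^ (1 - l1 - 2 * ε) := Real.rpow_le_rpow_of_exponent_le hx1 (by linarith)
  have h11 : 1 ≤ (x : ℝ) ^ (1 - l1 - 2 * ε) := Real.one_le_rpow hx1 (by linarith)
  have h12 : (0 : ℝ) ≤ n0 := Nat.cast_nonneg n0
  nlinarith

/-- **The limit points.** -/
theorem cluster (F : Facts Q S') (x : ℝ) :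
    MapClusterPt x (atTop ⊓ 𝓟 S') (fun n : ℕ => (kk S' n : ℝ) / Real.log n ^ 2) ↔ 0 ≤ x ∧ x ≤ 1 / cQ Q := by
  have hc := cQ_pos Q
  rw [mapClusterPt_iff_frequently]
  constructor
  · intro h
    constructor
    · by_contra hcon
      push Not at hcon
      have h1 := h _ (Iio_mem_nhds hcon)
      obtain ⟨n, hn⟩ := h1.exists
      have : (0 : ℝ) ≤ (kk S' n : ℝ) / Real.log n ^ 2 := by positivity
      exact absurd hn (not_lt.2 this)
    · by_contra hcon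
      push Not at hcon
      obtain ⟨y, hy1, hy2⟩ := exists_between hcon
      have h1 := h _ (Ioi_mem_nhds hy2)
      rw [frequently_inf_principal] at h1
      have hε : 0 < y * cQ Q - 1 := by
        rw [div_lt_iff₀ hc] at hy1
        linarith
      have h2 := kk_le F hε
      obtain ⟨n, ⟨hn1, hn2⟩, hn3, hn4⟩ := (h1.and_eventually (h2.and (hl.eventually_gt_atTop 0))).exists
      obtain ⟨_, _, h5⟩ := hn3 (F.cop n hn1)
      have h6 : y < (kk S' n : ℝ) / Real.log n ^ 2 := hn2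
      rw [lt_div_iff₀ (by positivity)] at h6
      rw [le_div_iff₀ hc] at h5
      have : y * cQ Q * Real.log n ^ 2 < (1 + (y * cQ Q - 1)) * Real.log n ^ 2 := by nlinarith
      linarith
  · rintro ⟨hx0, hx1⟩ s hs
    rw [frequently_inf_principal]
    obtain ⟨r, hr, hball⟩ := Metric.mem_nhds_iff.1 hs
    -- an interval inside
    have key : ∃ l1 l2 : ℝ, 0 < l1 ∧ l1 < l2 ∧ l2 < 1 ∧ x - r < l1 / cQ Q ∧ l2 / cQ Q < x + r := by
      rw [le_div_iff₀ hc] at hx1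
      have h1 : max 0 ((x - r) * cQ Q) < min 1 ((x + r) * cQ Q) := by
        refine max_lt (lt_min one_pos (mul_pos (by linarith) hc)) (lt_min ?_ ?_)
        · nlinarith
        · nlinarith
      obtain ⟨l1, a1, a2⟩ := exists_between h1
      obtain ⟨l2, b1, b2⟩ := exists_between a2
      rw [max_lt_iff] at a1
      rw [lt_min_iff] at b2
      refine ⟨l1, l2, a1.1, b1, b2.1, ?_, ?_⟩
      · rw [lt_div_iff₀ hc]
        exact a1.2
      · rw [div_lt_iff₀ hc]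
        exact b2.2
    obtain ⟨l1, l2, a1, a2, a3, a4, a5⟩ := key
    refine ((between F a1 a2 a3).and_eventually (hl.eventually_gt_atTop 0)).mono ?_
    rintro n ⟨⟨m1, m2, m3⟩, m4⟩
    refine ⟨m1, hball ?_⟩
    rw [Metric.mem_ball, Real.dist_eq, abs_lt]
    have h2 : 0 < Real.log (n : ℝ) ^ 2 := by positivity
    have h3 : l1 / cQ Q < (kk S' n : ℝ) / Real.log n ^ 2 := by
      rw [lt_div_iff₀ h2]
      linarith [show l1 / cQ Q * Real.log n ^ 2 = l1 * Real.log n ^ 2 / cQ Q by ring]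
    have h4 : (kk S' n : ℝ) / Real.log n ^ 2 ≤ l2 / cQ Q := by
      rw [div_le_iff₀ h2]
      linarith [show l2 / cQ Q * Real.log n ^ 2 = l2 * Real.log n ^ 2 / cQ Q by ring]
    constructor <;> linarith

end Pool.Agent.Q197.LK
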